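import Pool.Agent.Q24.EK.Turan

/-!
Most `n` in a residue class make `(A^2 n^2 - 1) / q` have many prime divisors.
-/

namespace Pool.Agent.Q24.EK

open Finset Filter

lemma omega_ge (A q c y t : ℕ) (hq : 2 ∣ q) (hc : 1 ≤ c) :
    w (q * A) y (A * t + c) + w (q * A) y (q * A * t + (q * c + 2)) ≤
      ((A * t + c) * (q * (A * t + c) + 2)).primeFactors.card := by
  classical
  unfold w
  rw [← Finset.card_union_of_disjoint]
  · refine Finset.card_le_card ?_
    intro p hp
    have hne : (A * t + c) * (q * (A * t + c) + 2) ≠ 0 :=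
      mul_ne_zero (by omega) (by omega)
    rw [Finset.mem_union, mem_filter, mem_filter] at hp
    rw [Nat.mem_primeFactors]
    rcases hp with hp | hp
    · have h1 := hp.1
      rw [SS, mem_filter, mem_filter] at h1
      exact ⟨h1.1.2, hp.2.trans (dvd_mul_right _ _), hne⟩
    · have h1 := hp.1
      rw [SS, mem_filter, mem_filter] at h1
      refine ⟨h1.1.2, ?_, hne⟩
      have h2 : q * (A * t + c) + 2 = q * A * t + (q * c + 2) := by ring
      rw [h2]
      exact hp.2.trans (dvd_mul_left _ _)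
  · rw [Finset.disjoint_left]
    intro p hp1 hp2
    rw [mem_filter] at hp1 hp2
    have h1 := hp1.1
    rw [SS, mem_filter, mem_filter] at h1
    have h2 : q * (A * t + c) + 2 = q * A * t + (q * c + 2) := by ring
    have h3 : p ∣ q * (A * t + c) + 2 := by rw [h2]; exact hp2.2
    have h4 : p ∣ 2 := (Nat.dvd_add_right (dvd_mul_of_dvd_right hp1.2 q)).1 h3
    exact h1.2 ((h4.trans hq).trans (dvd_mul_right _ _))

lemma LL_tendsto : Tendsto (fun y : ℕ => Real.log (Real.log (y : ℝ))) atTop atTop :=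
  Real.tendsto_log_atTop.comp (Real.tendsto_log_atTop.comp tendsto_natCast_atTop_atTop)

theorem many_good (A q b c : ℕ) (hq : 2 ∣ q) (hq0 : 0 < q) (hA : 0 < A) (hc : 1 ≤ c) (T : ℝ) (N₀ : ℕ) :
    ∃ M N : ℕ, N₀ ≤ N ∧ 0 < M ∧ N = b + q * M ∧ (N : ℝ) ≤ 3 / 2 * (q * M) ∧
      3 / 4 * (M : ℝ) ≤ (((range M).filter (fun t =>
        Real.log (Real.log N) + T * Real.sqrt (Real.log (Real.log N)) <
          (((A * t + c) * (q * (A * t + c) + 2)).primeFactors.card : ℝ))).card : ℝ) := by
  classical
  obtain ⟨C, hC⟩ := mu_lower (q * A) (Nat.mul_pos hq0 hA)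
  set R : ℝ := 1600 + |C| + (6 * |C| + 2 * |T| + 12) ^ 2 with hR
  have hev := LL_tendsto.eventually_ge_atTop R
  have hev2 := eventually_ge_atTop (max (max 100 N₀) (b + q))
  obtain ⟨y, hy1, hy2⟩ := (hev.and hev2).exists
  have hy100 : 100 ≤ y := (le_max_left _ _).trans ((le_max_left _ _).trans hy2)
  have hyN : N₀ ≤ y := (le_max_right _ _).trans ((le_max_left _ _).trans hy2)
  have hybq : b + q ≤ y := (le_max_right _ _).trans hy2
  have hyR : (100 : ℝ) ≤ y := by exact_mod_cast hy100
  set L := Real.log (Real.log (y : ℝ)) with hL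
  have hmu := hC y (by omega)
  set m := q * A with hm
  have hCabs : C ≤ |C| := le_abs_self C
  have hsq : 0 ≤ (6 * |C| + 2 * |T| + 12) ^ 2 := sq_nonneg _
  have habC : 0 ≤ |C| := abs_nonneg C
  have habT : 0 ≤ |T| := abs_nonneg T
  have hmu1600 : 1600 ≤ mu m y := by linarith
  have hmupos : 0 < mu m y := by linarith
  refine ⟨y ^ 4, b + q * y ^ 4, ?_, by positivity, rfl, ?_, ?_⟩
  · have h1 : y ≤ y ^ 4 := Nat.le_self_pow (by norm_num) y
    have h2 : y ^ 4 ≤ q * y ^ 4 := Nat.le_mul_of_pos_left _ hq0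
    omega
  · push_cast
    have h1 : (b : ℝ) ≤ y := by exact_mod_cast (by omega : b ≤ y)
    have h2 : (1 : ℝ) ≤ q := by exact_mod_cast hq0
    have h3 : 2 * (y : ℝ) ≤ (y : ℝ) ^ 4 := by
      have : (y : ℝ) ^ 4 = y * y ^ 3 := by ring
      have h4 : (2 : ℝ) ≤ (y : ℝ) ^ 3 := by nlinarith [mul_pos (by linarith : (0:ℝ) < y) (by linarith : (0:ℝ) < y)]
      nlinarith
    nlinarith [mul_nonneg (by linarith : (0 : ℝ) ≤ q - 1) (by positivity : (0 : ℝ) ≤ (y : ℝ) ^ 4)]
  · -- bounds for the bad sets
    have hb1 := few_bad A c m y (y ^ 4) (dvd_mul_left A q) hmupos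
    have hb2 := few_bad (q * A) (q * c + 2) m y (y ^ 4) (dvd_refl _) hmupos
    have hbnd : 100 * ((y ^ 4 : ℕ) : ℝ) / mu m y + 300 * (y : ℝ) ^ 2 / (mu m y) ^ 2 ≤
        1 / 8 * (y : ℝ) ^ 4 := by
      have e1 : 100 * ((y ^ 4 : ℕ) : ℝ) / mu m y ≤ 1 / 16 * (y : ℝ) ^ 4 := by
        rw [div_le_iff₀ hmupos]
        push_cast
        have : (0 : ℝ) ≤ (y : ℝ) ^ 4 := by positivity
        nlinarith
      have e2 : 300 * (y : ℝ) ^ 2 / (mu m y) ^ 2 ≤ 1 / 16 * (y : ℝ) ^ 4 := by
        rw [div_le_iff₀ (by positivity)]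
        have h5 : (1 : ℝ) ≤ (mu m y) ^ 2 := by nlinarith
        have h6 : (y : ℝ) ^ 4 = y ^ 2 * y ^ 2 := by ring
        have h7 : (10000 : ℝ) ≤ (y : ℝ) ^ 2 := by nlinarith
        have h8 : 300 * (y : ℝ) ^ 2 ≤ 1 / 16 * (y : ℝ) ^ 4 := by
          rw [h6]; nlinarith
        have h9 : (0 : ℝ) ≤ 1 / 16 * (y : ℝ) ^ 4 := by positivity
        nlinarith
      linarith
    set N : ℕ := b + q * y ^ 4 with hN
    set θ : ℝ := Real.log (Real.log N) + T * Real.sqrt (Real.log (Real.log N)) with hθ
    have hlogy : 0 < Real.log (y : ℝ) := Real.log_pos (by linarith)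
    have hloglog : Real.log (Real.log N) ≤ L + 2 := by
      have h1 : (N : ℝ) ≤ (y : ℝ) ^ 5 := by
        have : N ≤ y ^ 5 := by
          rw [hN]
          have h2 : b ≤ b * y ^ 4 := Nat.le_mul_of_pos_right _ (by positivity)
          have h3 : (b + q) * y ^ 4 ≤ y * y ^ 4 := Nat.mul_le_mul_right _ hybq
          have h4 : y ^ 5 = y * y ^ 4 := by ring
          rw [h4]
          nlinarith
        exact_mod_cast this
      have hNpos : (1 : ℝ) < N := by
        have : 1 < N := by
          rw [hN]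
          have h1 : y ≤ y ^ 4 := Nat.le_self_pow (by norm_num) y
          have h2 : y ^ 4 ≤ q * y ^ 4 := Nat.le_mul_of_pos_left _ hq0
          omega
        exact_mod_cast this
      have h2 : Real.log N ≤ 5 * Real.log y := by
        have := Real.log_le_log (by linarith) h1
        rwa [Real.log_pow] at this
      have h3 : Real.log (Real.log N) ≤ Real.log (5 * Real.log y) :=
        Real.log_le_log (Real.log_pos hNpos) h2
      rw [Real.log_mul (by norm_num) hlogy.ne'] at h3
      have h4 : Real.log 5 ≤ 2 := by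
        have : Real.log 5 ≤ Real.log (Real.exp 2) := by
          refine Real.log_le_log (by norm_num) ?_
          have := Real.exp_one_gt_d9
          have h6 : Real.exp 2 = Real.exp 1 * Real.exp 1 := by rw [← Real.exp_add]; norm_num
          rw [h6]; nlinarith
        rwa [Real.log_exp] at this
      linarith
    have hθle : θ < 2 * (9 / 10 * mu m y) := by
      have h1 : θ ≤ (L + 2) + |T| * Real.sqrt (L + 2) := by
        rw [hθ]
        have h2 : T * Real.sqrt (Real.log (Real.log N)) ≤ |T| * Real.sqrt (L + 2) := by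
          calc T * Real.sqrt (Real.log (Real.log N)) ≤ |T| * Real.sqrt (Real.log (Real.log N)) :=
                mul_le_mul_of_nonneg_right (le_abs_self T) (Real.sqrt_nonneg _)
            _ ≤ _ := mul_le_mul_of_nonneg_left (Real.sqrt_le_sqrt hloglog) habT
        linarith
      set s := Real.sqrt (L + 2) with hs
      have hs2 : s ^ 2 = L + 2 := Real.sq_sqrt (by linarith)
      have hs1 : 6 * |C| + 2 * |T| + 12 ≤ s := by
        rw [hs]
        refine Real.le_sqrt_of_sq_le ?_
        linarith
      have h3 : 2 * (9 / 10 * mu m y) ≥ 9 / 5 * (s ^ 2 - 2 - |C|) := by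
        rw [hs2]; linarith
      have h4 : (L + 2) + |T| * s = s ^ 2 + |T| * s := by rw [hs2]
      rw [h4] at h1
      have hs12 : 12 ≤ s := by linarith
      have h5 : |T| * s ≤ 1 / 2 * s ^ 2 := by nlinarith
      have h6 : 6 * |C| * 12 ≤ s ^ 2 := by nlinarith
      nlinarith
    -- the good set contains the complement of the bad sets
    set B1 := (range (y ^ 4)).filter (fun t => (w m y (A * t + c) : ℝ) < 9 / 10 * mu m y) with hB1
    set B2 := (range (y ^ 4)).filter
      (fun t => (w m y (q * A * t + (q * c + 2)) : ℝ) < 9 / 10 * mu m y) with hB2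
    set G := (range (y ^ 4)).filter (fun t =>
        θ < (((A * t + c) * (q * (A * t + c) + 2)).primeFactors.card : ℝ)) with hG
    have hcov : range (y ^ 4) ⊆ G ∪ (B1 ∪ B2) := by
      intro t ht
      rw [mem_union, mem_union]
      by_cases h1 : t ∈ B1
      · exact Or.inr (Or.inl h1)
      · by_cases h2 : t ∈ B2
        · exact Or.inr (Or.inr h2)
        · left
          rw [hB1, mem_filter, not_and, not_lt] at h1
          rw [hB2, mem_filter, not_and, not_lt] at h2
          have h1' := h1 ht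
          have h2' := h2 ht
          rw [hG, mem_filter]
          refine ⟨ht, ?_⟩
          have h3 := omega_ge A q c y t hq hc
          have h4 : (w m y (A * t + c) : ℝ) + (w m y (q * A * t + (q * c + 2)) : ℝ) ≤
              (((A * t + c) * (q * (A * t + c) + 2)).primeFactors.card : ℝ) := by
            exact_mod_cast h3
          linarith
    have hcard : (y ^ 4 : ℕ) ≤ G.card + (B1.card + B2.card) := by
      have h1 := Finset.card_le_card hcov
      rw [card_range] at h1
      exact h1.trans ((card_union_le _ _).trans (Nat.add_le_add_left (card_union_le _ _) _))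
    have hcardR : (y : ℝ) ^ 4 ≤ G.card + (B1.card + B2.card) := by exact_mod_cast hcard
    push_cast
    linarith

end Pool.Agent.Q24.EK
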