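import Mathlib
import Pool.Agent.Helper256.KM.Mertens

/-!
Turan's variance bound for the number of small prime divisors of values of a linear form.
-/

namespace Pool.Agent.Q24.EK

open Finset

/-- number of `t < M` with `d ∣ a t + b` -/
noncomputable def cnt (a b d M : ℕ) : ℝ := (((range M).filter (fun t => d ∣ a * t + b)).card : ℝ)

lemma cnt_close (a b d M : ℕ) (hd : 0 < d) (hco : Nat.Coprime a d) :
    |cnt a b d M - M / d| ≤ 1 := by
  -- a root of the congruence
  obtain ⟨c, hc⟩ : ∃ c : ℕ, d ∣ a * c + b := by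
    rcases Nat.eq_or_lt_of_le (Nat.succ_le_of_lt hd) with h1 | h1
    · exact ⟨0, by rw [← h1]; simp⟩
    · obtain ⟨e, -, he⟩ := Nat.exists_mul_mod_eq_one_of_coprime hco h1
      -- a * e ≡ 1 mod d
      refine ⟨e * (b * (d - 1)), ?_⟩
      have h2 : a * e ≡ 1 [MOD d] := by
        rw [Nat.ModEq, he, Nat.mod_eq_of_lt h1]
      have h3 : a * (e * (b * (d - 1))) + b ≡ 1 * (b * (d - 1)) + b [MOD d] := by
        rw [← mul_assoc]
        exact (h2.mul_right _).add_right _
      have h4 : 1 * (b * (d - 1)) + b = d * b := by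
        obtain ⟨k, rfl⟩ : ∃ k, d = k + 1 := ⟨d - 1, by omega⟩
        simp only [Nat.add_sub_cancel]
        ring
      rw [h4] at h3
      exact (Nat.modEq_zero_iff_dvd.1 (h3.trans (Nat.modEq_zero_iff_dvd.2 (dvd_mul_right d b))))
  have h5 : ∀ t, (d ∣ a * t + b ↔ t ≡ c [MOD d]) := by
    intro t
    constructor
    · intro h
      have h6 : a * t + b ≡ a * c + b [MOD d] :=
        (Nat.modEq_zero_iff_dvd.2 h).trans (Nat.modEq_zero_iff_dvd.2 hc).symm
      have h7 : a * t ≡ a * c [MOD d] := Nat.ModEq.add_right_cancel' b h6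
      exact Nat.ModEq.cancel_left_of_coprime (by rw [Nat.coprime_comm] at hco; exact hco) h7
    · intro h
      have h6 : a * t + b ≡ a * c + b [MOD d] := (h.mul_left a).add_right b
      exact Nat.modEq_zero_iff_dvd.1 (h6.trans (Nat.modEq_zero_iff_dvd.2 hc))
  have h8 : cnt a b d M = ((M / d + if c % d < M % d then 1 else 0 : ℕ) : ℝ) := by
    rw [cnt, ← Nat.count_modEq_card M hd c, Nat.count_eq_card_filter_range]
    congr 2
    ext t
    simp only [mem_filter, mem_range]
    rw [h5 t]
  rw [h8]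
  have hdR : (0 : ℝ) < d := by exact_mod_cast hd
  have h9 : ((M / d : ℕ) : ℝ) ≤ (M : ℝ) / d := Nat.cast_div_le
  have h10 : (M : ℝ) / d < ((M / d : ℕ) : ℝ) + 1 := by
    rw [div_lt_iff₀ hdR]
    have := Nat.lt_div_mul_add hd (a := M)
    have h11 : (M : ℝ) < ((M / d * d + d : ℕ) : ℝ) := by exact_mod_cast this
    push_cast at h11
    linarith
  rw [abs_le]
  split_ifs with h
  · push_cast
    constructor <;> linarith
  · push_cast
    constructor <;> linarith

/-- the primes up to `y` not dividing `m` -/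
def SS (m y : ℕ) : Finset ℕ := ((Finset.Icc 1 y).filter Nat.Prime).filter (fun p => ¬ p ∣ m)

lemma SS_card (m y : ℕ) : (SS m y).card ≤ y := by
  unfold SS
  refine (card_filter_le _ _).trans ((card_filter_le _ _).trans ?_)
  simp

/-- sum of reciprocals -/
noncomputable def mu (m y : ℕ) : ℝ := ∑ p ∈ SS m y, (1 : ℝ) / p

/-- number of primes in `SS` dividing the value -/
def w (m y v : ℕ) : ℕ := ((SS m y).filter (fun p => p ∣ v)).card

lemma mu_nonneg (m y : ℕ) : 0 ≤ mu m y := Finset.sum_nonneg fun _ _ => by positivity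

lemma variance (a b m y M : ℕ) (ham : a ∣ m) :
    ∑ t ∈ range M, ((w m y (a * t + b) : ℝ) - mu m y) ^ 2 ≤ M * mu m y + 3 * (y : ℝ) ^ 2 := by
  classical
  set S := SS m y with hS
  have hp : ∀ p ∈ S, p.Prime ∧ Nat.Coprime a p := by
    intro p hp
    rw [hS, SS, mem_filter, mem_filter] at hp
    refine ⟨hp.1.2, ?_⟩
    rw [Nat.coprime_comm]
    exact (Nat.Prime.coprime_iff_not_dvd hp.1.2).2 fun h => hp.2 (h.trans ham)
  set f : ℕ → ℕ → ℝ := fun p t => if p ∣ a * t + b then 1 else 0 with hf
  have hw : ∀ t, (w m y (a * t + b) : ℝ) - mu m y = ∑ p ∈ S, (f p t - 1 / p) := by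
    intro t
    rw [Finset.sum_sub_distrib]
    congr 1
    rw [w, ← hS]
    simp [hf]
  have hsum : ∑ t ∈ range M, ((w m y (a * t + b) : ℝ) - mu m y) ^ 2 =
      ∑ p ∈ S, ∑ p' ∈ S, ∑ t ∈ range M, (f p t - 1 / p) * (f p' t - 1 / p') := by
    rw [Finset.sum_congr rfl (fun t _ => by rw [hw t, sq, Finset.sum_mul_sum])]
    rw [Finset.sum_comm]
    refine Finset.sum_congr rfl fun p _ => ?_
    rw [Finset.sum_comm]
  rw [hsum]
  have hN : ∀ p, ∑ t ∈ range M, f p t = cnt a b p M := by
    intro p
    simp [hf, cnt]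
  have key : ∀ p ∈ S, ∀ p' ∈ S, ∑ t ∈ range M, (f p t - 1 / p) * (f p' t - 1 / p') ≤
      3 + if p = p' then (M : ℝ) / p else 0 := by
    intro p hpS p' hpS'
    have h1 := hp p hpS
    have h1' := hp p' hpS'
    have hp2 : (2 : ℝ) ≤ p := by exact_mod_cast h1.1.two_le
    have hp2' : (2 : ℝ) ≤ p' := by exact_mod_cast h1'.1.two_le
    have hc1 := abs_le.1 (cnt_close a b p M h1.1.pos h1.2)
    have hc1' := abs_le.1 (cnt_close a b p' M h1'.1.pos h1'.2)
    have hexp : ∑ t ∈ range M, (f p t - 1 / p) * (f p' t - 1 / p') =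
        (∑ t ∈ range M, f p t * f p' t) - cnt a b p M / p' - cnt a b p' M / p
          + M / (p * p') := by
      have : ∀ t, (f p t - 1 / p) * (f p' t - 1 / p') =
          f p t * f p' t - f p t * (1 / p') - f p' t * (1 / p) + 1 / (p * p') := by
        intro t
        have : (p : ℝ) ≠ 0 := by positivity
        have : (p' : ℝ) ≠ 0 := by positivity
        field_simp
        ring
      rw [Finset.sum_congr rfl (fun t _ => this t), Finset.sum_add_distrib,
        Finset.sum_sub_distrib, Finset.sum_sub_distrib, ← Finset.sum_mul, ← Finset.sum_mul,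
        hN, hN, Finset.sum_const, card_range, nsmul_eq_mul]
      ring
    rw [hexp]
    have hip : (1 : ℝ) / p ≤ 1 / 2 := one_div_le_one_div_of_le (by norm_num) hp2
    have hip' : (1 : ℝ) / p' ≤ 1 / 2 := one_div_le_one_div_of_le (by norm_num) hp2'
    have hip0 : (0 : ℝ) < 1 / p := by positivity
    have hip0' : (0 : ℝ) < 1 / p' := by positivity
    by_cases he : p = p'
    · subst he
      rw [if_pos rfl]
      have h2 : ∑ t ∈ range M, f p t * f p t = cnt a b p M := by
        rw [← hN]
        refine Finset.sum_congr rfl fun t _ => ?_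
        simp only [hf]
        split_ifs <;> simp
      rw [h2]
      have h3 : (M : ℝ) / (p * p) = (M / p) * (1 / p) := by
        have : (p : ℝ) ≠ 0 := by positivity
        field_simp
      have h4 : cnt a b p M / p = cnt a b p M * (1 / p) := by ring
      rw [h3, h4]
      have h5 : 0 ≤ (M : ℝ) / p := by positivity
      nlinarith [hc1.1, hc1.2]
    · rw [if_neg he, add_zero]
      have hcop : Nat.Coprime p p' := (Nat.coprime_primes h1.1 h1'.1).2 he
      have h2 : ∑ t ∈ range M, f p t * f p' t = cnt a b (p * p') M := by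
        rw [← hN]
        refine Finset.sum_congr rfl fun t _ => ?_
        simp only [hf]
        by_cases ha : p ∣ a * t + b
        · by_cases hb : p' ∣ a * t + b
          · rw [if_pos ha, if_pos hb, if_pos (hcop.mul_dvd_of_dvd_of_dvd ha hb)]
            simp
          · rw [if_neg hb, if_neg fun h => hb ((dvd_mul_left _ _).trans h)]
            simp
        · rw [if_neg ha, if_neg fun h => ha ((dvd_mul_right _ _).trans h)]
          simp
      rw [h2]
      have hc2 := abs_le.1 (cnt_close a b (p * p') M (Nat.mul_pos h1.1.pos h1'.1.pos)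
        (Nat.Coprime.mul_right h1.2 h1'.2))
      have h3 : (M : ℝ) / ((p * p' : ℕ) : ℝ) = M / (p * p') := by push_cast; ring
      rw [h3] at hc2
      have h4 : cnt a b p M / p' = cnt a b p M * (1 / p') := by ring
      have h5 : cnt a b p' M / p = cnt a b p' M * (1 / p) := by ring
      have h6 : (M : ℝ) / (p * p') = (M / p) * (1 / p') := by
        have : (p : ℝ) ≠ 0 := by positivity
        have : (p' : ℝ) ≠ 0 := by positivity
        field_simp
      have h7 : (M : ℝ) / (p * p') = (M / p') * (1 / p) := by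
        have : (p : ℝ) ≠ 0 := by positivity
        have : (p' : ℝ) ≠ 0 := by positivity
        field_simp
      have h8 : (cnt a b p M - M / p) * (1 / p') ≥ -1 := by nlinarith [hc1.1, hc1.2]
      have h9 : (cnt a b p' M - M / p') * (1 / p) ≥ -1 := by nlinarith [hc1'.1, hc1'.2]
      rw [h4, h5]
      nlinarith [hc2.1, hc2.2, h6, h7, h8, h9]
  calc ∑ p ∈ S, ∑ p' ∈ S, ∑ t ∈ range M, (f p t - 1 / p) * (f p' t - 1 / p')
      ≤ ∑ p ∈ S, ∑ p' ∈ S, (3 + if p = p' then (M : ℝ) / p else 0) :=
        Finset.sum_le_sum fun p hpS => Finset.sum_le_sum fun p' hpS' => key p hpS p' hpS'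
    _ = 3 * (S.card : ℝ) ^ 2 + M * mu m y := by
        have h1 : ∀ p ∈ S, ∑ p' ∈ S, (3 + if p = p' then (M : ℝ) / p else 0) =
            3 * S.card + M / p := by
          intro p hpS
          rw [Finset.sum_add_distrib, Finset.sum_const, nsmul_eq_mul, Finset.sum_ite_eq,
            if_pos hpS]
          ring
        rw [Finset.sum_congr rfl h1, Finset.sum_add_distrib, Finset.sum_const, nsmul_eq_mul,
          mu, Finset.mul_sum]
        congr 1
        · ring
        · refine Finset.sum_congr (by rw [hS]) fun p _ => by ring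
    _ ≤ M * mu m y + 3 * (y : ℝ) ^ 2 := by
        have h1 : (S.card : ℝ) ≤ y := by exact_mod_cast SS_card m y
        have h2 : (S.card : ℝ) ^ 2 ≤ (y : ℝ) ^ 2 := by
          have : (0 : ℝ) ≤ S.card := by positivity
          nlinarith
        linarith

/-- few values have few small prime divisors -/
lemma few_bad (a b m y M : ℕ) (ham : a ∣ m) (hmu : 0 < mu m y) :
    (((range M).filter (fun t => (w m y (a * t + b) : ℝ) < 9 / 10 * mu m y)).card : ℝ) ≤
      100 * M / mu m y + 300 * (y : ℝ) ^ 2 / (mu m y) ^ 2 := by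
  have h1 := variance a b m y M ham
  set B := (range M).filter (fun t => (w m y (a * t + b) : ℝ) < 9 / 10 * mu m y) with hB
  have h2 : (B.card : ℝ) * (mu m y / 10) ^ 2 ≤
      ∑ t ∈ range M, ((w m y (a * t + b) : ℝ) - mu m y) ^ 2 := by
    calc (B.card : ℝ) * (mu m y / 10) ^ 2 = ∑ t ∈ B, (mu m y / 10) ^ 2 := by
          rw [Finset.sum_const, nsmul_eq_mul]
      _ ≤ ∑ t ∈ B, ((w m y (a * t + b) : ℝ) - mu m y) ^ 2 := by
          refine Finset.sum_le_sum fun t ht => ?_
          rw [hB, mem_filter] at ht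
          nlinarith [ht.2]
      _ ≤ _ := Finset.sum_le_sum_of_subset_of_nonneg (filter_subset _ _)
          fun _ _ _ => sq_nonneg _
  have h3 := h2.trans h1
  have h4 : (B.card : ℝ) ≤ (M * mu m y + 3 * (y : ℝ) ^ 2) / (mu m y / 10) ^ 2 := by
    rw [le_div_iff₀ (by positivity)]
    exact h3
  refine h4.trans (le_of_eq ?_)
  field_simp
  ring

lemma mu_lower (m : ℕ) (hm : 0 < m) : ∃ C : ℝ, ∀ y : ℕ, 3 ≤ y →
    Real.log (Real.log y) - C ≤ mu m y := by
  obtain ⟨C, hC⟩ := Pool.Agent.Helper256.KM.mertens_inv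
  refine ⟨C + m.primeFactors.card, fun y hy => ?_⟩
  have h1 := abs_le.1 (hC y hy)
  have h2 : ∑ p ∈ (Finset.Icc 1 y).filter Nat.Prime, (1 : ℝ) / p ≤
      mu m y + m.primeFactors.card := by
    rw [← Finset.sum_filter_add_sum_filter_not _ (fun p => ¬ p ∣ m)]
    refine add_le_add (le_of_eq rfl) ?_
    have h3 : (((Finset.Icc 1 y).filter Nat.Prime).filter (fun p => ¬¬ p ∣ m)) ⊆
        m.primeFactors := by
      intro p hp
      rw [mem_filter, mem_filter, not_not] at hp
      exact Nat.mem_primeFactors.2 ⟨hp.1.2, hp.2, hm.ne'⟩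
    calc ∑ p ∈ (((Finset.Icc 1 y).filter Nat.Prime).filter (fun p => ¬¬ p ∣ m)), (1 : ℝ) / p
        ≤ ∑ p ∈ m.primeFactors, (1 : ℝ) / p :=
          Finset.sum_le_sum_of_subset_of_nonneg h3 fun _ _ _ => by positivity
      _ ≤ ∑ p ∈ m.primeFactors, (1 : ℝ) := by
          refine Finset.sum_le_sum fun p hp => ?_
          have : (1 : ℝ) ≤ p := by
            exact_mod_cast (Nat.prime_of_mem_primeFactors hp).one_lt.le
          rw [div_le_one (by linarith)]
          exact this
      _ = m.primeFactors.card := by simp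
  linarith [h1.1]

end Pool.Agent.Q24.EK
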